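import Pool.Agent.Q120.ME.Stm

/-!
# Project ME, job ENM: the relative entropy of a mixture
-/

set_option autoImplicit false

namespace Pool.Agent.Q224.ME

open Finset MeasureTheory Pool.Agent.Q120.ME Pool.Agent.Q120.ET

/-- `t log (t / q)` -/
noncomputable def gq (q t : ℝ) : ℝ := t * Real.log (t / q)

theorem gq_eq {q : ℝ} (hq : 0 < q) (t : ℝ) : gq q t = t * Real.log t - t * Real.log q := by
  unfold gq
  rcases eq_or_ne t 0 with h | h
  · simp [h]
  · rw [Real.log_div h hq.ne']
    ring

theorem gq_cont {q : ℝ} (hq : 0 < q) : Continuous (gq q) := by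
  have : gq q = fun t => t * Real.log t - t * Real.log q := by
    funext t
    exact gq_eq hq t
  rw [this]
  exact Real.continuous_mul_log.sub (continuous_id.mul continuous_const)

theorem gq_convex {q : ℝ} (hq : 0 < q) : ConvexOn ℝ (Set.Ici (0 : ℝ)) (gq q) := by
  have : gq q = fun t => t * Real.log t + (-Real.log q) * t := by
    funext t
    rw [gq_eq hq t]
    ring
  rw [this]
  refine Real.convexOn_mul_log.add ?_
  refine ⟨convex_Ici 0, fun x _ y _ a b _ _ _ => ?_⟩
  simp only [smul_eq_mul]
  apply le_of_eq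
  ring

theorem gq_mul {q p a b : ℝ} (hq : 0 < q) (hp : 0 < p) :
    gq (q * p) (a * b) = b * gq q a + a * gq p b := by
  unfold gq
  rcases eq_or_ne a 0 with h | h
  · simp [h]
  rcases eq_or_ne b 0 with h' | h'
  · simp [h']
  have : a * b / (q * p) = (a / q) * (b / p) := by
    field_simp
  rw [this, Real.log_mul (div_ne_zero h hq.ne') (div_ne_zero h' hp.ne')]
  ring

theorem kl_eq (a b : ℝ) : kl a b = gq b a + gq (1 - b) (1 - a) := rfl

theorem integ_comp {X : Type} [MeasurableSpace X] (ν : Measure X) [IsProbabilityMeasure ν] {g : ℝ → ℝ}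
    (hg : Continuous g) {f : X → ℝ} (hf : Measurable f) (h01 : ∀ x, f x ∈ Set.Icc (0 : ℝ) 1) :
    Integrable (fun x => g (f x)) ν := by
  obtain ⟨C, hC⟩ := isCompact_Icc.exists_bound_of_continuousOn (s := Set.Icc (0 : ℝ) 1) hg.continuousOn
  exact Integrable.of_bound (hg.measurable.comp hf).aestronglyMeasurable C
    (Filter.Eventually.of_forall fun x => hC _ (h01 x))

theorem bern_insert {a : ℕ → ℝ} {F T : Finset ℕ} {m : ℕ} (hm : m ∉ F) (hT : T ⊆ F) :
    bern a (insert m F) T = (1 - a m) * bern a F T := by
  unfold bern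
  rw [prod_insert hm, if_neg (fun h => hm (hT h))]

theorem bern_insert' {a : ℕ → ℝ} {F T : Finset ℕ} {m : ℕ} (hm : m ∉ F) :
    bern a (insert m F) (insert m T) = a m * bern a F T := by
  unfold bern
  rw [prod_insert hm, if_pos (mem_insert_self _ _)]
  congr 1
  refine prod_congr rfl fun n hn => ?_
  have : n ≠ m := fun h => hm (h ▸ hn)
  simp [mem_insert, this]

theorem sum_powerset_insert' {F : Finset ℕ} {m : ℕ} (hm : m ∉ F) (h : Finset ℕ → ℝ) :
    ∑ T ∈ (insert m F).powerset, h T = ∑ T ∈ F.powerset, (h T + h (insert m T)) := by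
  rw [sum_powerset_insert hm, sum_add_distrib]

theorem sum_bern (a : ℕ → ℝ) (F : Finset ℕ) : ∑ T ∈ F.powerset, bern a F T = 1 := by
  induction F using Finset.induction_on with
  | empty => simp [bern]
  | insert m F hm ih =>
    rw [sum_powerset_insert' hm]
    have : ∀ T ∈ F.powerset, bern a (insert m F) T + bern a (insert m F) (insert m T) = bern a F T := by
      intro T hT
      rw [bern_insert hm (mem_powerset.1 hT), bern_insert' hm]
      ring
    rw [sum_congr rfl this, ih]

theorem bern_pos {p : ℕ → ℝ} {F : Finset ℕ} (hp : ∀ n ∈ F, 0 < p n ∧ p n < 1) (T : Finset ℕ) :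
    0 < bern p F T := by
  unfold bern
  refine prod_pos fun n hn => ?_
  split_ifs
  · exact (hp n hn).1
  · linarith [(hp n hn).2]

theorem bern_mem {a : ℕ → ℝ} (F T : Finset ℕ) (ha : ∀ n, 0 ≤ a n ∧ a n ≤ 1) :
    bern a F T ∈ Set.Icc (0 : ℝ) 1 := by
  unfold bern
  constructor
  · refine prod_nonneg fun n _ => ?_
    split_ifs
    · exact (ha n).1
    · linarith [(ha n).2]
  · refine prod_le_one (fun n _ => ?_) (fun n _ => ?_)
    · split_ifs
      · exact (ha n).1
      · linarith [(ha n).2]
    · split_ifs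
      · exact (ha n).2
      · linarith [(ha n).1]

theorem sum_gq (a p : ℕ → ℝ) (F : Finset ℕ) (hp : ∀ n ∈ F, 0 < p n ∧ p n < 1) :
    ∑ T ∈ F.powerset, gq (bern p F T) (bern a F T) = ∑ n ∈ F, kl (a n) (p n) := by
  induction F using Finset.induction_on with
  | empty => simp [bern, gq]
  | insert m F hm ih =>
    have hp' : ∀ n ∈ F, 0 < p n ∧ p n < 1 := fun n hn => hp n (mem_insert_of_mem hn)
    have hpm := hp m (mem_insert_self _ _)
    rw [sum_powerset_insert' hm, sum_insert hm, ← ih hp']
    have : ∀ T ∈ F.powerset, gq (bern p (insert m F) T) (bern a (insert m F) T) +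
        gq (bern p (insert m F) (insert m T)) (bern a (insert m F) (insert m T)) =
        bern a F T * kl (a m) (p m) + gq (bern p F T) (bern a F T) := by
      intro T hT
      rw [bern_insert hm (mem_powerset.1 hT), bern_insert' hm, bern_insert hm (mem_powerset.1 hT),
        bern_insert' hm, gq_mul (by linarith) (bern_pos hp' T), gq_mul hpm.1 (bern_pos hp' T), kl_eq]
      ring
    rw [sum_congr rfl this, sum_add_distrib, ← sum_mul, sum_bern, one_mul]

theorem t_ENM : J_ENM := by
  intro X _ ν _ r hrm hr Ω _ μ _ A π hM p F hp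
  have hbm : ∀ T, Measurable (fun x => bern (r x) F T) := by
    intro T
    unfold bern
    refine Finset.measurable_prod _ fun n _ => ?_
    split_ifs
    · exact hrm n
    · exact measurable_const.sub (hrm n)
  have hlaw : ∀ T, lawOn μ A F T = ∫ x, bern (r x) F T ∂ν := by
    intro T
    have := hM.law F T Set.univ MeasurableSet.univ
    rw [Set.preimage_univ, Set.inter_univ, Measure.restrict_univ] at this
    exact this
  have hint : ∀ T ∈ F.powerset, Integrable (fun x => gq (bern p F T) (bern (r x) F T)) ν :=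
    fun T _ => integ_comp ν (gq_cont (bern_pos hp T)) (hbm T) fun x => bern_mem F T (hr x)
  constructor
  · refine integrable_finsetSum _ fun n hn => ?_
    have h1 := integ_comp ν (gq_cont (hp n hn).1) (hrm n) fun x => hr x n
    have h2 := integ_comp ν (gq_cont (show 0 < 1 - p n by linarith [(hp n hn).2]))
      (f := fun x => 1 - r x n) (measurable_const.sub (hrm n))
      fun x => ⟨by linarith [(hr x n).2], by linarith [(hr x n).1]⟩
    exact h1.add h2
  · have h1 : ∀ x, ∑ n ∈ F, kl (r x n) (p n) = ∑ T ∈ F.powerset, gq (bern p F T) (bern (r x) F T) :=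
      fun x => (sum_gq (r x) p F hp).symm
    simp only [h1]
    rw [integral_finsetSum _ hint]
    unfold relEnt
    refine sum_le_sum fun T hT => ?_
    have h2 := ConvexOn.map_integral_le (μ := ν) (gq_convex (bern_pos hp T)) (gq_cont (bern_pos hp T)).continuousOn
      isClosed_Ici (f := fun x => bern (r x) F T)
      (Filter.Eventually.of_forall fun x => (bern_mem F T (hr x)).1)
      (integ_comp ν continuous_id (hbm T) fun x => bern_mem F T (hr x))
      (hint T hT)
    rw [← hlaw T] at h2
    exact h2

end Pool.Agent.Q224.ME
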