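import Pool.Agent.Q120.ME.Stm

/-!
# Project ME, job KLB: a bound for the relative entropy of Bernoulli laws
-/

set_option autoImplicit false

namespace Pool.Agent.Q224.ME

open Pool.Agent.Q120.ME

theorem neg_log_one_sub_le {q : ℝ} (hq : 0 < q) (hq2 : q ≤ 1 / 2) : -Real.log (1 - q) ≤ q + q ^ 2 := by
  have h1 := Real.abs_log_sub_add_sum_range_le (x := q) (by rw [abs_of_pos hq]; linarith) 4
  rw [abs_of_pos hq] at h1
  have h2 := (abs_le.1 h1).1
  simp only [Finset.sum_range_succ, Finset.sum_range_zero] at h2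
  norm_num at h2
  have h3 : q ^ 5 / (1 - q) ≤ 2 * q ^ 5 := by
    rw [div_le_iff₀ (by linarith)]
    have : 0 < q ^ 5 := by positivity
    nlinarith
  have h4 : q ^ 3 ≤ q ^ 2 / 2 := by nlinarith [sq_nonneg q]
  have h5 : q ^ 4 ≤ q ^ 2 / 4 := by
    have : q ^ 4 = q ^ 3 * q := by ring
    have h6 : q ^ 3 * q ≤ q ^ 2 / 2 * (1 / 2) :=
      mul_le_mul h4 hq2 hq.le (by positivity)
    linarith
  have h6 : q ^ 5 ≤ q ^ 2 / 8 := by
    have : q ^ 5 = q ^ 4 * q := by ring
    have h6 : q ^ 4 * q ≤ q ^ 2 / 4 * (1 / 2) :=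
      mul_le_mul h5 hq2 hq.le (by positivity)
    linarith
  have h7 : 0 < q ^ 2 := by positivity
  linarith

theorem t_KLB : J_KLB := by
  intro u q hu hq hq2 huq
  unfold kl hfun
  have h1 : u * q / q = u := by field_simp
  rw [h1]
  have hl := neg_log_one_sub_le hq hq2
  have hv : 0 ≤ u * q := mul_nonneg hu hq.le
  have h2 : (1 - u * q) * Real.log ((1 - u * q) / (1 - q)) ≤ -(u * q) + (u * q) ^ 2 + (q + q ^ 2) := by
    rcases eq_or_lt_of_le huq with h | h
    · rw [h]
      norm_num
      positivity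
    · rw [Real.log_div (by linarith) (by linarith)]
      have h3 : Real.log (1 - u * q) ≤ -(u * q) := by
        have := Real.log_le_sub_one_of_pos (show 0 < 1 - u * q by linarith)
        linarith
      have h4 : (1 - u * q) * Real.log (1 - u * q) ≤ (1 - u * q) * (-(u * q)) :=
        mul_le_mul_of_nonneg_left h3 (by linarith)
      have h5 : (1 - u * q) * (-Real.log (1 - q)) ≤ 1 * (q + q ^ 2) :=
        mul_le_mul (by linarith) hl (by
          have := Real.log_nonpos (show 0 ≤ 1 - q by linarith) (by linarith)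
          linarith) (by norm_num)
      nlinarith
  nlinarith

end Pool.Agent.Q224.ME
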